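import Pool.Agent.Helper53.SL.St

/-!
# MP_9062f4_nt, project SL, module FAT

An integer sequence with a linear recurrence over the rationals has a monic integer recurrence (Fatou's lemma).
-/

set_option autoImplicit false

open Polynomial

noncomputable section

namespace Pool.Agent.Helper97.SL

open Pool.Agent.Helper53.SL

/-- the powers of the shift -/
lemma sh_pow (K : Type) [CommRing K] (i : ℕ) (y : ℕ → K) (k : ℕ) : ((sh K) ^ i) y k = y (k + i) := by
  induction i generalizing k with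
  | zero => simp
  | succ i ih =>
    rw [pow_succ, Module.End.mul_apply]
    have h : ((sh K) ^ i) (sh K y) k = ((sh K) ^ i * sh K) y k := rfl
    rw [h, (Commute.pow_self (sh K) i).eq, Module.End.mul_apply]
    change ((sh K) ^ i) y (k + 1) = y (k + (i + 1))
    rw [ih (k + 1)]
    congr 1
    ring

/-- the value of a polynomial in the shift -/
lemma aeval_sh (K : Type) [CommRing K] (b : K[X]) (y : ℕ → K) (k : ℕ) :
    (aeval (sh K) b y) k = ∑ i ∈ Finset.range (b.natDegree + 1), b.coeff i * y (k + i) := by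
  rw [aeval_eq_sum_range]
  simp only [LinearMap.sum_apply, LinearMap.smul_apply, Finset.sum_apply, Pi.smul_apply, smul_eq_mul]
  exact Finset.sum_congr rfl fun i _ => by rw [sh_pow]

/-- the cast of integer sequences -/
def io : (ℕ → ℤ) →ₗ[ℤ] (ℕ → ℚ) := (Int.castAddHom ℚ).toIntLinearMap.compLeft ℕ

lemma io_apply (y : ℕ → ℤ) : io y = fun k => (y k : ℚ) := rfl

/-- the module of integer sequences with the recurrence `b` -/
def Lm (b : ℚ[X]) : Submodule ℤ (ℕ → ℤ) :=
  LinearMap.ker (((aeval (sh ℚ) b).restrictScalars ℤ).comp io)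

lemma mem_Lm (b : ℚ[X]) (y : ℕ → ℤ) : y ∈ Lm b ↔ aeval (sh ℚ) b (fun k => (y k : ℚ)) = 0 := Iff.rfl

lemma Lm_zero (b : ℚ[X]) (hb : b ≠ 0) (y : ℕ → ℤ) (hy : y ∈ Lm b) (h0 : ∀ i < b.natDegree, y i = 0) :
    y = 0 := by
  rw [mem_Lm] at hy
  funext n
  induction n using Nat.strong_induction_on with
  | _ n ih =>
    by_cases hn : n < b.natDegree
    · exact h0 n hn
    · push Not at hn
      obtain ⟨k, rfl⟩ := Nat.exists_eq_add_of_le' hn
      have h1 := congrFun hy k
      rw [aeval_sh, Finset.sum_range_succ] at h1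
      rw [Finset.sum_eq_zero, zero_add] at h1
      · have h2 : b.coeff b.natDegree ≠ 0 := by simpa using hb
        have h3 : ((y (k + b.natDegree) : ℤ) : ℚ) = 0 := by
          rcases mul_eq_zero.mp h1 with h | h
          · exact absurd h h2
          · exact h
        simpa using h3
      · intro i hi
        rw [Finset.mem_range] at hi
        rw [ih (k + i) (by omega)]
        simp

theorem Lm_finite (b : ℚ[X]) (hb : b ≠ 0) : Module.Finite ℤ (Lm b) := by
  refine Module.Finite.of_injective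
    ((LinearMap.funLeft ℤ ℤ (Fin.val : Fin b.natDegree → ℕ)).comp (Lm b).subtype) ?_
  rw [← LinearMap.ker_eq_bot, LinearMap.ker_eq_bot']
  rintro ⟨y, hy⟩ h
  have h1 : y = 0 := by
    refine Lm_zero b hb y hy fun i hi => ?_
    exact congrFun h ⟨i, hi⟩
  exact Subtype.ext h1

lemma Lm_sh (b : ℚ[X]) (y : ℕ → ℤ) (hy : y ∈ Lm b) : sh ℤ y ∈ Lm b := by
  rw [mem_Lm] at hy ⊢
  have h1 : (fun k => ((sh ℤ y k : ℤ) : ℚ)) = sh ℚ (fun k => (y k : ℚ)) := rfl
  rw [h1]
  have h2 : aeval (sh ℚ) b * sh ℚ = sh ℚ * aeval (sh ℚ) b := by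
    have := congrArg (aeval (sh ℚ)) (mul_comm b (X : ℚ[X]))
    simpa [map_mul] using this
  have h3 := LinearMap.congr_fun h2 (fun k => (y k : ℚ))
  rw [Module.End.mul_apply, Module.End.mul_apply, hy, map_zero] at h3
  exact h3

lemma aeval_restrict (M : Submodule ℤ (ℕ → ℤ)) (h : ∀ y ∈ M, sh ℤ y ∈ M) (m : ℤ[X]) (z : M) :
    ((aeval ((sh ℤ).restrict h) m z : M) : ℕ → ℤ) = aeval (sh ℤ) m (z : ℕ → ℤ) := by
  rw [aeval_eq_sum_range, aeval_eq_sum_range]
  simp only [LinearMap.sum_apply, LinearMap.smul_apply]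
  rw [Submodule.coe_sum]
  refine Finset.sum_congr rfl fun i _ => ?_
  rw [Submodule.coe_smul, Module.End.pow_restrict]
  rfl

/-- MODULE FAT. -/
theorem hFat : StFat := by
  rintro x ⟨b, hb, hx⟩
  have hxL : x ∈ Lm b := hx
  have : Module.Finite ℤ (Lm b) := Lm_finite b hb
  obtain ⟨m, hm, hm0⟩ := (Algebra.IsIntegral.isIntegral (R := ℤ) ((sh ℤ).restrict (Lm_sh b)) :
    IsIntegral ℤ ((sh ℤ).restrict (Lm_sh b)))
  refine ⟨m, hm, ?_⟩
  have h1 := aeval_restrict (Lm b) (Lm_sh b) m ⟨x, hxL⟩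
  rw [← h1]
  rw [aeval_def, hm0]
  rfl

end Pool.Agent.Helper97.SL

end
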